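import Pool.Agent.MNW.StmtsA

/-!
# Squad MNW, row HGW: explicit bound of the height of the configuration
-/

set_option autoImplicit false

namespace Pool.Agent.MNW.H38

open Polynomial NumberField
open Pool.Agent.MNT

/-! ## The right side as a linear functional -/

section lin

variable {K : Type} [Field K] (g m : ℕ) (A : ℝ) (z : QI g m → K) (N : QI g m → ℕ) (u c : QI g m → K)

/-- the right side of the local inequality, `L = log |.|` -/
noncomputable def Rh (L : K → ℝ) : ℝ :=
  Psi g m A (QR g m) (fun p q => - L (z p - z q)) -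
    A * ∑ x ∈ (QR g m)ᶜ, (L (u x) - L (c x)) / N x

theorem pairs_add (B : Finset (QI g m)) (δ δ' : QI g m → QI g m → ℝ) :
    pairs B (fun p q => δ p q + δ' p q) = pairs B δ + pairs B δ' := by
  unfold pairs
  rw [← Finset.sum_add_distrib]
  exact Finset.sum_congr rfl fun p _ => Finset.sum_add_distrib

theorem pairs_mul (B : Finset (QI g m)) (a : ℝ) (δ : QI g m → QI g m → ℝ) :
    pairs B (fun p q => a * δ p q) = a * pairs B δ := by
  unfold pairs
  rw [Finset.mul_sum]
  exact Finset.sum_congr rfl fun p _ => (Finset.mul_sum _ _ _).symm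

theorem cross_add (B B' : Finset (QI g m)) (δ δ' : QI g m → QI g m → ℝ) :
    cross B B' (fun p q => δ p q + δ' p q) = cross B B' δ + cross B B' δ' := by
  unfold cross
  rw [← Finset.sum_add_distrib]
  exact Finset.sum_congr rfl fun p _ => Finset.sum_add_distrib

theorem cross_mul (B B' : Finset (QI g m)) (a : ℝ) (δ : QI g m → QI g m → ℝ) :
    cross B B' (fun p q => a * δ p q) = a * cross B B' δ := by
  unfold cross
  rw [Finset.mul_sum]
  exact Finset.sum_congr rfl fun p _ => (Finset.mul_sum _ _ _).symm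

theorem psi_add (δ δ' : QI g m → QI g m → ℝ) :
    Psi g m A (QR g m) (fun p q => δ p q + δ' p q) = Psi g m A (QR g m) δ + Psi g m A (QR g m) δ' := by
  unfold Psi
  rw [pairs_add, pairs_add, cross_add]
  ring

theorem psi_mul (a : ℝ) (δ : QI g m → QI g m → ℝ) :
    Psi g m A (QR g m) (fun p q => a * δ p q) = a * Psi g m A (QR g m) δ := by
  unfold Psi
  rw [pairs_mul, pairs_mul, cross_mul]
  ring

theorem rh_add (L L' : K → ℝ) :
    Rh g m A z N u c (fun a => L a + L' a) = Rh g m A z N u c L + Rh g m A z N u c L' := by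
  unfold Rh
  have h1 : (fun p q => - (L (z p - z q) + L' (z p - z q))) =
      fun p q => (fun p q => - L (z p - z q)) p q + (fun p q => - L' (z p - z q)) p q := by
    funext p q
    ring
  rw [h1, psi_add]
  have h2 : ∑ x ∈ (QR g m)ᶜ, (L (u x) + L' (u x) - (L (c x) + L' (c x))) / N x =
      ∑ x ∈ (QR g m)ᶜ, (L (u x) - L (c x)) / N x + ∑ x ∈ (QR g m)ᶜ, (L' (u x) - L' (c x)) / N x := by
    rw [← Finset.sum_add_distrib]
    exact Finset.sum_congr rfl fun x _ => by ring
  rw [h2]
  ring

theorem rh_mul (a : ℝ) (L : K → ℝ) :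
    Rh g m A z N u c (fun b => a * L b) = a * Rh g m A z N u c L := by
  unfold Rh
  have h1 : (fun p q => - (a * L (z p - z q))) =
      fun p q => a * (fun p q => - L (z p - z q)) p q := by
    funext p q
    ring
  rw [h1, psi_mul]
  have h2 : ∑ x ∈ (QR g m)ᶜ, (a * L (u x) - a * L (c x)) / N x =
      a * ∑ x ∈ (QR g m)ᶜ, (L (u x) - L (c x)) / N x := by
    rw [Finset.mul_sum]
    exact Finset.sum_congr rfl fun x _ => by ring
  rw [h2]
  ring

theorem rh_zero (L : K → ℝ) (h1 : ∀ p q, p ≠ q → L (z p - z q) = 0)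
    (h2 : ∀ x, x ∉ QR g m → L (u x) = 0) (h3 : ∀ x, x ∉ QR g m → L (c x) = 0) :
    Rh g m A z N u c L = 0 := by
  unfold Rh Psi
  have e1 : ∀ B : Finset (QI g m), pairs B (fun p q => - L (z p - z q)) = 0 := by
    intro B
    unfold pairs
    refine Finset.sum_eq_zero fun p _ => Finset.sum_eq_zero fun q hq => ?_
    change - L (z p - z q) = 0
    rw [h1 p q (Finset.ne_of_mem_erase hq).symm, neg_zero]
  have e2 : cross (QR g m) (QR g m)ᶜ (fun p q => - L (z p - z q)) = 0 := by
    unfold cross
    refine Finset.sum_eq_zero fun p hp => Finset.sum_eq_zero fun q hq => ?_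
    change - L (z p - z q) = 0
    rw [h1 p q, neg_zero]
    rintro rfl
    exact (Finset.mem_compl.1 hq) hp
  have e3 : ∑ x ∈ (QR g m)ᶜ, (L (u x) - L (c x)) / N x = 0 := by
    refine Finset.sum_eq_zero fun x hx => ?_
    rw [h2 x (Finset.mem_compl.1 hx), h3 x (Finset.mem_compl.1 hx), sub_zero, zero_div]
  rw [e1, e1, e2, e3]
  ring

theorem rh_sum {ι : Type} (s : Finset ι) (w : ι → ℝ) (L : ι → K → ℝ) :
    Rh g m A z N u c (fun a => ∑ i ∈ s, w i * L i a) = ∑ i ∈ s, w i * Rh g m A z N u c (L i) := by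
  classical
  induction s using Finset.induction_on with
  | empty =>
    simp only [Finset.sum_empty]
    exact rh_zero g m A z N u c _ (fun _ _ _ => rfl) (fun _ _ => rfl) (fun _ _ => rfl)
  | insert i s hi ih =>
    rw [Finset.sum_insert hi, ← ih, ← rh_mul, ← rh_add]
    congr 1
    funext a
    rw [Finset.sum_insert hi]

end lin

/-! ## Change of fields -/

section chg

variable {K E : Type} [Field K] [Field E] (φ : K →+* E)

theorem ff_map {P : Type} (e : K) (R : Finset P) (z : P → K) :
    (FF e R z).map φ = FF (φ e) R (fun p => φ (z p)) := by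
  unfold FF
  rw [Polynomial.map_mul, Polynomial.map_C, Polynomial.map_prod]
  congr 1
  refine Finset.prod_congr rfl fun p _ => ?_
  rw [Polynomial.map_sub, Polynomial.map_X, Polynomial.map_C]

theorem sol_map {F : K[X]} {x : K} {N : ℕ} {U W : K[X]} {c : K} (h : IsSol F x N U W c) :
    IsSol (F.map φ) (φ x) N (U.map φ) (W.map φ) (φ c) := by
  refine ⟨h.pos, (_root_.map_ne_zero φ).2 h.c_ne, ?_, ?_, ?_, ?_⟩
  · have h1 := congrArg (Polynomial.map φ) h.eq
    simp only [Polynomial.map_sub, Polynomial.map_pow, Polynomial.map_mul, Polynomial.map_C,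
      Polynomial.map_X] at h1
    exact h1
  · rw [Polynomial.natDegree_map]
    exact h.deg
  · rw [Polynomial.leadingCoeff_map, ← map_pow, h.lead, map_pow]
  · rw [Polynomial.eval_map, Polynomial.eval₂_at_apply]
    exact (_root_.map_ne_zero φ).2 h.ev

theorem ev_map (U : K[X]) (x : K) : (U.map φ).eval (φ x) = φ (U.eval x) := by
  rw [Polynomial.eval_map, Polynomial.eval₂_at_apply]

end chg

/-- HGW -/
theorem hgw (hLBW : LbwStmt) (hPFL : PflStmt) (hEV : BHT.EVStmt) (hExt : UBT.Ext1Stmt) :
    HgwStmt := by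
  classical
  intro g m hg K _ _ z e hcfg
  obtain ⟨A, hA⟩ := hg
  have hm9 := hA.m_ge
  obtain ⟨hN, hC⟩ := hLBW g m A hA
  obtain ⟨ε, hε1⟩ : ∃ ε : ℝ, ε = 1 / 30 := ⟨_, rfl⟩
  obtain ⟨M, hM1⟩ : ∃ M : ℝ, M = (4 * (g : ℝ) + 10) ^ 5 := ⟨_, rfl⟩
  rw [← hε1] at hN hC
  rw [← hM1] at hC
  have hε : 0 < ε := by rw [hε1]; norm_num
  have hM0 : 0 ≤ M := by rw [hM1]; positivity
  have hz := hcfg.inj
  have he := hcfg.e_ne
  choose! N U W c hS using hcfg.sol
  -- infinite places
  have hInf : ∀ v : InfinitePlace K, ∀ p q p' q', p ≠ q → p' ≠ q' →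
      ε * (Real.log (v (z p - z q)) - Real.log (v (z p' - z q'))) ≤
        Rh g m A z N (fun x => (U x).eval (z x)) c (fun a => Real.log (v a)) + M := by
    intro v p q p' q' hpq hpq'
    have h1 := hC (fun p => v.embedding (z p)) (v.embedding.injective.comp hz) (v.embedding e) N
      (fun x => (U x).map v.embedding) (fun x => (W x).map v.embedding)
      (fun x => v.embedding (c x)) ((_root_.map_ne_zero _).2 he) (by
        intro x hx
        have := sol_map v.embedding (hS x hx)
        rwa [ff_map] at this) p q p' q' hpq hpq'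
    have hv : ∀ a b : QI g m, dis vC (fun p => v.embedding (z p)) a b =
        - Real.log (v (z a - z b)) := by
      intro a b
      unfold dis
      rw [← map_sub]
      change - Real.log ‖v.embedding (z a - z b)‖ = _
      rw [InfinitePlace.norm_embedding_eq]
    have hd : dis vC (fun p => v.embedding (z p)) = fun a b => - Real.log (v (z a - z b)) := by
      funext a b
      exact hv a b
    rw [hd] at h1
    simp only [ev_map, InfinitePlace.norm_embedding_eq] at h1
    unfold Rh
    linarith
  -- finite places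
  have hU0 : ∀ x, x ∉ QR g m → U x ≠ 0 := by
    intro x hx h
    have := (hS x hx).ev
    rw [h, Polynomial.eval_zero] at this
    exact this rfl
  obtain ⟨E, _, _, _, hspl, _⟩ := hExt K (∏ x ∈ (QR g m)ᶜ, U x)
    (Finset.prod_ne_zero_iff.2 fun x hx => hU0 x (Finset.mem_compl.1 hx))
  have hsplx : ∀ x, x ∉ QR g m → ((U x).map (algebraMap K E)).Splits := by
    intro x hx
    refine Splits.of_dvd hspl ?_ ?_
    · exact (Polynomial.map_ne_zero_iff (algebraMap K E).injective).2
        (Finset.prod_ne_zero_iff.2 fun x hx => hU0 x (Finset.mem_compl.1 hx))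
    · exact Polynomial.map_dvd _ (Finset.dvd_prod_of_mem _ (Finset.mem_compl.2 hx))
  have hFin : ∀ v : FinitePlace K, ∀ p q p' q', p ≠ q → p' ≠ q' →
      ε * (Real.log (v (z p - z q)) - Real.log (v (z p' - z q'))) ≤
        Rh g m A z N (fun x => (U x).eval (z x)) c (fun a => Real.log (v a)) := by
    intro v p q p' q' hpq hpq'
    obtain ⟨v', hna, hv'⟩ := hEV K E v
    have h1 := hN E v' hna (fun p => algebraMap K E (z p))
      ((algebraMap K E).injective.comp hz) (algebraMap K E e) N
      (fun x => (U x).map (algebraMap K E)) (fun x => (W x).map (algebraMap K E))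
      (fun x => algebraMap K E (c x)) ((_root_.map_ne_zero _).2 he) (by
        intro x hx
        have := sol_map (algebraMap K E) (hS x hx)
        rw [ff_map] at this
        exact ⟨this, hsplx x hx⟩) p q p' q' hpq hpq'
    have hd : dis v' (fun p => algebraMap K E (z p)) = fun a b => - Real.log (v (z a - z b)) := by
      funext a b
      unfold dis
      rw [← map_sub, hv']
    rw [hd] at h1
    simp only [ev_map, hv'] at h1
    unfold Rh
    linarith
  -- the families
  obtain ⟨f, hf⟩ : ∃ f : QI g m × QI g m → K, f = fun pq => z pq.1 - z pq.2 := ⟨_, rfl⟩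
  have hfe : ∀ pq, f pq = z pq.1 - z pq.2 := fun pq => congrFun hf pq
  have hf0 : ∀ p q, p ≠ q → f (p, q) ≠ 0 := by
    intro p q h
    rw [hfe]
    exact sub_ne_zero.2 fun h' => h (hz h')
  have hfp : ∀ d : Function.support f, (d : QI g m × QI g m).1 ≠ (d : QI g m × QI g m).2 := by
    intro d h
    apply d.2
    rw [hfe, h, sub_self]
  have hpq0 : (Sum.inr ⟨0, by omega⟩ : QI g m) ≠ Sum.inr ⟨1, by omega⟩ := by
    intro h
    have h1 := Sum.inr.inj h
    have h2 := congrArg Fin.val h1
    exact absurd h2 (by norm_num)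
  obtain ⟨d0, _⟩ : ∃ d0 : Function.support f, True :=
    ⟨⟨(Sum.inr ⟨0, by omega⟩, Sum.inr ⟨1, by omega⟩), hf0 _ _ hpq0⟩, trivial⟩
  have : Nonempty (Function.support f) := ⟨d0⟩
  have : Fintype (Function.support f) := Fintype.ofFinite _
  obtain ⟨S1, hS1⟩ := hPFL K (Function.support f) (fun d => f d) (fun d => d.2)
  obtain ⟨S2, hS2⟩ := hPFL K (Function.support f ⊕ ({x : QI g m // x ∉ QR g m} ⊕
      {x : QI g m // x ∉ QR g m}))
    (Sum.elim (fun d => f d) (Sum.elim (fun x => (U x).eval (z x)) (fun x => c x))) (by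
      rintro (d | x | x)
      · exact d.2
      · exact (hS x x.2).ev
      · exact (hS x x.2).c_ne)
  obtain ⟨T, hT⟩ : ∃ T : Finset (FinitePlace K), T = S1 ∪ S2 := ⟨_, rfl⟩
  obtain ⟨hpf1, hht⟩ := hS1 T (by rw [hT]; exact Finset.subset_union_left)
  obtain ⟨hpf2, _⟩ := hS2 T (by rw [hT]; exact Finset.subset_union_right)
  -- the sum of the right sides vanishes
  have hR : ∑ v : InfinitePlace K, (v.mult : ℝ) *
        Rh g m A z N (fun x => (U x).eval (z x)) c (fun a => Real.log (v a)) +
      ∑ v ∈ T, Rh g m A z N (fun x => (U x).eval (z x)) c (fun a => Real.log (v a)) = 0 := by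
    have h1 := rh_sum g m A z N (fun x => (U x).eval (z x)) c Finset.univ
      (fun v : InfinitePlace K => (v.mult : ℝ)) (fun v a => Real.log (v a))
    have h2 := rh_sum g m A z N (fun x => (U x).eval (z x)) c T
      (fun _ : FinitePlace K => (1 : ℝ)) (fun v a => Real.log (v a))
    simp only [one_mul] at h2
    rw [← h1, ← h2, ← rh_add]
    refine rh_zero g m A z N _ c _ ?_ ?_ ?_
    · intro p q h
      have := hpf2 (Sum.inl ⟨(p, q), hf0 p q h⟩)
      simp only [Sum.elim_inl, hfe] at this
      exact this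
    · intro x hx
      exact hpf2 (Sum.inr (Sum.inl ⟨x, hx⟩))
    · intro x hx
      exact hpf2 (Sum.inr (Sum.inr ⟨x, hx⟩))
  -- the suprema
  have hsI : ∀ v : InfinitePlace K, ε * (Real.log (⨆ d : Function.support f, v (f d)) -
      Real.log (v (f d0))) ≤
        Rh g m A z N (fun x => (U x).eval (z x)) c (fun a => Real.log (v a)) + M := by
    intro v
    obtain ⟨d, hd⟩ := exists_eq_ciSup_of_finite (f := fun d : Function.support f => v (f d))
    rw [← hd]
    have := hInf v _ _ _ _ (hfp d) (hfp d0)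
    rw [← hfe, ← hfe] at this
    exact this
  have hsF : ∀ v : FinitePlace K, ε * (Real.log (⨆ d : Function.support f, v (f d)) -
      Real.log (v (f d0))) ≤
        Rh g m A z N (fun x => (U x).eval (z x)) c (fun a => Real.log (v a)) := by
    intro v
    obtain ⟨d, hd⟩ := exists_eq_ciSup_of_finite (f := fun d : Function.support f => v (f d))
    rw [← hd]
    have := hFin v _ _ _ _ (hfp d) (hfp d0)
    rw [← hfe, ← hfe] at this
    exact this
  have h1 : ∑ v : InfinitePlace K, (v.mult : ℝ) *
      (ε * (Real.log (⨆ d : Function.support f, v (f d)) - Real.log (v (f d0)))) ≤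
      ∑ v : InfinitePlace K, (v.mult : ℝ) *
        (Rh g m A z N (fun x => (U x).eval (z x)) c (fun a => Real.log (v a)) + M) :=
    Finset.sum_le_sum fun v _ => mul_le_mul_of_nonneg_left (hsI v) (Nat.cast_nonneg _)
  have h2 : ∑ v ∈ T, ε * (Real.log (⨆ d : Function.support f, v (f d)) -
      Real.log (v (f d0))) ≤
      ∑ v ∈ T, Rh g m A z N (fun x => (U x).eval (z x)) c (fun a => Real.log (v a)) :=
    Finset.sum_le_sum fun v _ => hsF v
  have h3 : ∑ v : InfinitePlace K, (v.mult : ℝ) *
      (ε * (Real.log (⨆ d : Function.support f, v (f d)) - Real.log (v (f d0)))) =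
      ε * ∑ v : InfinitePlace K, (v.mult : ℝ) * Real.log (⨆ d : Function.support f, v (f d)) -
      ε * ∑ v : InfinitePlace K, (v.mult : ℝ) * Real.log (v (f d0)) := by
    rw [Finset.mul_sum, Finset.mul_sum, ← Finset.sum_sub_distrib]
    exact Finset.sum_congr rfl fun v _ => by ring
  have h4 : ∑ v ∈ T, ε * (Real.log (⨆ d : Function.support f, v (f d)) -
      Real.log (v (f d0))) =
      ε * ∑ v ∈ T, Real.log (⨆ d : Function.support f, v (f d)) -
      ε * ∑ v ∈ T, Real.log (v (f d0)) := by
    rw [Finset.mul_sum, Finset.mul_sum, ← Finset.sum_sub_distrib]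
    exact Finset.sum_congr rfl fun v _ => by ring
  have h5 : ∑ v : InfinitePlace K, (v.mult : ℝ) *
        (Rh g m A z N (fun x => (U x).eval (z x)) c (fun a => Real.log (v a)) + M) =
      ∑ v : InfinitePlace K, (v.mult : ℝ) *
        Rh g m A z N (fun x => (U x).eval (z x)) c (fun a => Real.log (v a)) +
      M * Module.finrank ℚ K := by
    have h6 : ((∑ v : InfinitePlace K, v.mult : ℕ) : ℝ) = Module.finrank ℚ K := by
      rw [InfinitePlace.sum_mult_eq]
    rw [← h6, Nat.cast_sum, Finset.mul_sum, ← Finset.sum_add_distrib]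
    exact Finset.sum_congr rfl fun v _ => by ring
  have h7 := hpf1 d0
  have h8 : ε * Real.log (Height.mulHeight fun d : Function.support f => f d) ≤
      M * Module.finrank ℚ K := by
    rw [hht]
    rw [h3, h5] at h1
    rw [h4] at h2
    have h9 : ε * ∑ v : InfinitePlace K, (v.mult : ℝ) * Real.log (v (f d0)) +
        ε * ∑ v ∈ T, Real.log (v (f d0)) = 0 := by
      rw [← mul_add, h7, mul_zero]
    rw [mul_add]
    linarith
  have h10 : Real.log (Height.mulHeight fun d : Function.support f => f d) ≤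
      M / ε * Module.finrank ℚ K := by
    rw [div_mul_eq_mul_div, le_div_iff₀ hε, mul_comm _ ε]
    exact h8
  have h11 : (fun pq : QI g m × QI g m => z pq.1 - z pq.2) = f := hf.symm
  rw [h11, Height.mulHeight_eq_mulHeight_restrict_support f]
  have h12 : 0 < Height.mulHeight fun d : Function.support f => f d := Height.mulHeight_pos _
  unfold HH
  rw [← Real.exp_log h12, ← Real.exp_nat_mul]
  refine Real.exp_le_exp.2 (le_trans h10 (le_of_eq ?_))
  rw [hM1, hε1]
  ring

end Pool.Agent.MNW.H38
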